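import Pool.Agent.K3h26.R5.Stm

/-! Brick BODY of project R5 (helper26): the convex body and its packings. -/

set_option autoImplicit false
set_option linter.all false

open MeasureTheory Filter Topology Set
open scoped ENNReal

namespace Pool.Agent.K3h79.R5

open H947TP Pool.Agent.K3h26.R5

/-- gauges -/
structure Gau {ι : Type} {D : ℕ} (g : ι → (Fin D → ℝ) → ℝ) : Prop where
  cont : ∀ i, Continuous (g i)
  even : ∀ i v, g i (-v) = g i v
  zero : ∀ i, g i 0 < 1
  conv : ∀ i (x y : Fin D → ℝ) (a c : ℝ), 0 ≤ a → 0 ≤ c → a + c = 1 →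
    g i (a • x + c • y) ≤ a * g i x + c * g i y

/-- the body -/
def bod {ι : Type} {D : ℕ} (g : ι → (Fin D → ℝ) → ℝ) : Set (Fin D → ℝ) :=
  {x | ∀ i, g i ((2 : ℝ) • x) ≤ 1}

section

variable {ι : Type} [Finite ι] {D : ℕ} {g : ι → (Fin D → ℝ) → ℝ}

theorem cont2 (hg : Gau g) (i : ι) : Continuous fun x : Fin D → ℝ => g i ((2 : ℝ) • x) :=
  (hg.cont i).comp (continuous_const_smul 2)

theorem isOpen_int (hg : Gau g) : IsOpen {x : Fin D → ℝ | ∀ i, g i ((2 : ℝ) • x) < 1} := by
  have h : {x : Fin D → ℝ | ∀ i, g i ((2 : ℝ) • x) < 1} =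
      ⋂ i, {x : Fin D → ℝ | g i ((2 : ℝ) • x) < 1} := by
    ext x
    simp
  rw [h]
  exact isOpen_iInter_of_finite fun i => isOpen_lt (cont2 hg i) continuous_const

theorem interior_bod (hg : Gau g) :
    interior (bod g) = {x | ∀ i, g i ((2 : ℝ) • x) < 1} := by
  apply Subset.antisymm
  · intro y hy k
    have h0 := hg.zero k
    have hy' := mem_interior_iff_mem_nhds.mp hy
    have ht : Tendsto (fun t : ℝ => (1 + t) • y) (𝓝 0) (𝓝 y) := by
      have : Continuous (fun t : ℝ => (1 + t) • y) := by fun_prop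
      have h := this.tendsto 0
      simpa using h
    have hev := ht.eventually hy'
    have hev2 : ∀ᶠ t in 𝓝[>] (0 : ℝ), (1 + t) • y ∈ bod g ∧ 0 < t := by
      refine (hev.filter_mono nhdsWithin_le_nhds).and ?_
      exact self_mem_nhdsWithin
    obtain ⟨t, ht1, ht0⟩ := hev2.exists
    have hk := ht1 k
    have hpos : 0 < 1 + t := by linarith
    have heq : (2 : ℝ) • y = (1 / (1 + t)) • ((2 : ℝ) • ((1 + t) • y)) + (t / (1 + t)) • 0 := by
      rw [smul_zero, add_zero, smul_smul, smul_smul]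
      congr 1
      field_simp
    have hle := hg.conv k ((2 : ℝ) • ((1 + t) • y)) 0 (1 / (1 + t)) (t / (1 + t)) (by positivity)
      (by positivity) (by field_simp)
    rw [← heq] at hle
    have h1 : 1 / (1 + t) * g k ((2 : ℝ) • ((1 + t) • y)) ≤ 1 / (1 + t) * 1 :=
      mul_le_mul_of_nonneg_left hk (by positivity)
    have h2 : t / (1 + t) * g k 0 < t / (1 + t) * 1 :=
      mul_lt_mul_of_pos_left h0 (by positivity)
    have h3 : 1 / (1 + t) * 1 + t / (1 + t) * 1 = 1 := by field_simp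
    linarith
  · exact interior_maximal (fun x hx k => (hx k).le) (isOpen_int hg)

theorem bod_facts (hg : Gau g) (R : ℝ) (hR : bod g ⊆ Metric.closedBall 0 R) :
    Convex ℝ (bod g) ∧ IsCompact (bod g) ∧ (interior (bod g)).Nonempty ∧
    (∀ x ∈ bod g, -x ∈ bod g) ∧ volume (bod g) ≠ 0 ∧ volume (bod g) ≠ ⊤ := by
  have hclosed : IsClosed (bod g) := by
    have h : bod g = ⋂ i, {x : Fin D → ℝ | g i ((2 : ℝ) • x) ≤ 1} := by
      ext x
      simp only [bod, mem_iInter]
      rfl
    rw [h]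
    exact isClosed_iInter fun i => isClosed_le (cont2 hg i) continuous_const
  have hcomp : IsCompact (bod g) :=
    Metric.isCompact_of_isClosed_isBounded hclosed (Metric.isBounded_closedBall.subset hR)
  have hint : (interior (bod g)).Nonempty := by
    refine ⟨0, ?_⟩
    rw [interior_bod hg]
    intro i
    rw [smul_zero]
    exact hg.zero i
  refine ⟨?_, hcomp, hint, ?_, ?_, hcomp.measure_lt_top.ne⟩
  · intro x hx y hy a c ha hc hac i
    have h1 := hg.conv i ((2 : ℝ) • x) ((2 : ℝ) • y) a c ha hc hac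
    have h2 : (2 : ℝ) • (a • x + c • y) = a • ((2 : ℝ) • x) + c • ((2 : ℝ) • y) := by
      rw [smul_add, smul_comm (2 : ℝ) a, smul_comm (2 : ℝ) c]
    rw [h2]
    have h3 := mul_le_mul_of_nonneg_left (hx i) ha
    have h4 := mul_le_mul_of_nonneg_left (hy i) hc
    linarith
  · intro x hx i
    rw [smul_neg, hg.even]
    exact hx i
  · have h := isOpen_interior.measure_pos volume hint
    exact (lt_of_lt_of_le h (measure_mono interior_subset)).ne'

theorem mem_interior_tr {d : ℕ} (x z : Fin d → ℝ) (K : Set (Fin d → ℝ)) :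
    z ∈ interior (tr x K) ↔ z - x ∈ interior K := by
  have h : tr x K = (Homeomorph.addLeft x) '' K := rfl
  rw [h, ← (Homeomorph.addLeft x).image_interior]
  constructor
  · rintro ⟨w, hw, rfl⟩
    simpa using hw
  · intro hz
    exact ⟨z - x, hz, by simp⟩

theorem packing_iff (hg : Gau g) (X : Set (Fin D → ℝ)) :
    IsPacking (bod g) X ↔ ∀ x ∈ X, ∀ y ∈ X, x ≠ y → ∃ i, 1 ≤ g i (x - y) := by
  have hint := interior_bod hg
  constructor
  · intro hpack x hx y hy hxy
    by_contra hsep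
    push Not at hsep
    have hd := hpack x hx y hy hxy
    rw [Set.disjoint_left] at hd
    refine hd (a := (1 / 2 : ℝ) • (x + y)) ?_ ?_
    · rw [mem_interior_tr, hint]
      intro k
      have h : (2 : ℝ) • ((1 / 2 : ℝ) • (x + y) - x) = -(x - y) := by
        funext i
        simp only [Pi.smul_apply, Pi.sub_apply, Pi.add_apply, Pi.neg_apply, smul_eq_mul]
        ring
      rw [h, hg.even]
      exact hsep k
    · rw [mem_interior_tr, hint]
      intro k
      have h : (2 : ℝ) • ((1 / 2 : ℝ) • (x + y) - y) = x - y := by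
        funext i
        simp only [Pi.smul_apply, Pi.sub_apply, Pi.add_apply, smul_eq_mul]
        ring
      rw [h]
      exact hsep k
  · intro hall x hx y hy hxy
    rw [Set.disjoint_left]
    intro z hzx hzy
    rw [mem_interior_tr, hint] at hzx hzy
    obtain ⟨k, hk⟩ := hall x hx y hy hxy
    have heq : x - y = (1 / 2 : ℝ) • ((2 : ℝ) • (z - y)) + (1 / 2 : ℝ) • (-((2 : ℝ) • (z - x))) := by
      funext i
      simp only [Pi.smul_apply, Pi.sub_apply, Pi.add_apply, Pi.neg_apply, smul_eq_mul]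
      ring
    have hle := hg.conv k ((2 : ℝ) • (z - y)) (-((2 : ℝ) • (z - x))) (1 / 2) (1 / 2)
      (by norm_num) (by norm_num) (by norm_num)
    rw [← heq, hg.even] at hle
    have h1 := hzx k
    have h2 := hzy k
    linarith

end

/-! ## The three gauges -/

theorem abs_cv {a c : ℝ} (ha : 0 ≤ a) (hc : 0 ≤ c) (x y : Fin 5 → ℝ) (k : Fin 5) :
    |(a • x + c • y) k| ≤ a * |x k| + c * |y k| := by
  simp only [Pi.add_apply, Pi.smul_apply, smul_eq_mul]
  refine (abs_add_le _ _).trans ?_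
  rw [abs_mul a, abs_mul c, abs_of_nonneg ha, abs_of_nonneg hc]

theorem n1_cv {a c : ℝ} (ha : 0 ≤ a) (hc : 0 ≤ c) (x y : Fin 5 → ℝ) :
    n1 (a • x + c • y) ≤ a * n1 x + c * n1 y := by
  unfold n1
  have h0 := abs_cv ha hc x y 0
  have h1 := abs_cv ha hc x y 1
  have h2 := abs_cv ha hc x y 2
  rw [mul_add, mul_add, mul_add, mul_add]
  linarith

theorem sy_cv {a c : ℝ} (ha : 0 ≤ a) (hc : 0 ≤ c) (x y : Fin 5 → ℝ) :
    sy (a • x + c • y) ≤ a * sy x + c * sy y := by
  unfold sy
  have h0 := abs_cv ha hc x y 3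
  have h1 := abs_cv ha hc x y 4
  have e : a * ((|x 3| + |x 4|) / 2) + c * ((|y 3| + |y 4|) / 2) =
      ((a * |x 3| + c * |y 3|) + (a * |x 4| + c * |y 4|)) / 2 := by ring
  rw [e]
  linarith

theorem my_cv {a c : ℝ} (ha : 0 ≤ a) (hc : 0 ≤ c) (x y : Fin 5 → ℝ) :
    my (a • x + c • y) ≤ a * my x + c * my y := by
  unfold my
  refine max_le ((abs_cv ha hc x y 3).trans ?_) ((abs_cv ha hc x y 4).trans ?_)
  · exact add_le_add (mul_le_mul_of_nonneg_left (le_max_left _ _) ha)
      (mul_le_mul_of_nonneg_left (le_max_left _ _) hc)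
  · exact add_le_add (mul_le_mul_of_nonneg_left (le_max_right _ _) ha)
      (mul_le_mul_of_nonneg_left (le_max_right _ _) hc)

theorem ni_cv {a c : ℝ} (ha : 0 ≤ a) (hc : 0 ≤ c) (x y : Fin 5 → ℝ) :
    ni (a • x + c • y) ≤ a * ni x + c * ni y := by
  unfold ni
  refine max_le ((abs_cv ha hc x y 0).trans ?_) (max_le ((abs_cv ha hc x y 1).trans ?_)
    ((abs_cv ha hc x y 2).trans ?_))
  · exact add_le_add (mul_le_mul_of_nonneg_left (le_max_left _ _) ha)
      (mul_le_mul_of_nonneg_left (le_max_left _ _) hc)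
  · exact add_le_add
      (mul_le_mul_of_nonneg_left ((le_max_left _ _).trans (le_max_right _ _)) ha)
      (mul_le_mul_of_nonneg_left ((le_max_left _ _).trans (le_max_right _ _)) hc)
  · exact add_le_add
      (mul_le_mul_of_nonneg_left ((le_max_right _ _).trans (le_max_right _ _)) ha)
      (mul_le_mul_of_nonneg_left ((le_max_right _ _).trans (le_max_right _ _)) hc)

/-- the gauges -/
noncomputable def g3 (lam ε : ℝ) : Fin 3 → (Fin 5 → ℝ) → ℝ :=
  ![fun v => n1 v / 3 + ε * rh lam v, fun v => ni v / 2 + ε * sy v, fun v => my v]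

theorem gau_g3 {lam ε : ℝ} (h0 : 0 ≤ lam) (h1 : lam ≤ 1) (hε : 0 < ε) (hε1 : ε ≤ 1) :
    Gau (g3 lam ε) := by
  refine ⟨?_, ?_, ?_, ?_⟩
  · intro i
    fin_cases i
    · show Continuous fun v : Fin 5 → ℝ => n1 v / 3 + ε * rh lam v
      unfold n1 rh my
      fun_prop
    · show Continuous fun v : Fin 5 → ℝ => ni v / 2 + ε * sy v
      unfold ni sy
      fun_prop
    · show Continuous fun v : Fin 5 → ℝ => my v
      unfold my
      fun_prop
  · intro i v
    fin_cases i
    · show n1 (-v) / 3 + ε * rh lam (-v) = n1 v / 3 + ε * rh lam v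
      simp only [n1, rh, my, Pi.neg_apply, abs_neg]
    · show ni (-v) / 2 + ε * sy (-v) = ni v / 2 + ε * sy v
      simp only [ni, sy, Pi.neg_apply, abs_neg]
    · show my (-v) = my v
      simp only [my, Pi.neg_apply, abs_neg]
  · intro i
    fin_cases i
    · show n1 (0 : Fin 5 → ℝ) / 3 + ε * rh lam (0 : Fin 5 → ℝ) < 1
      simp only [n1, rh, my, Pi.zero_apply, abs_zero, max_self, mul_zero, add_zero, zero_div,
        zero_add]
      nlinarith
    · show ni (0 : Fin 5 → ℝ) / 2 + ε * sy (0 : Fin 5 → ℝ) < 1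
      simp [ni, sy]
    · show my (0 : Fin 5 → ℝ) < 1
      simp [my]
  · intro i x y a c ha hc hac
    fin_cases i
    · show n1 (a • x + c • y) / 3 + ε * rh lam (a • x + c • y) ≤
        a * (n1 x / 3 + ε * rh lam x) + c * (n1 y / 3 + ε * rh lam y)
      have h2 := n1_cv ha hc x y
      have h3 := mul_le_mul_of_nonneg_left (mul_le_mul_of_nonneg_left (my_cv ha hc x y) h0) hε.le
      have h4 : c = 1 - a := by linarith
      have e : a * (n1 x / 3 + ε * rh lam x) + c * (n1 y / 3 + ε * rh lam y) =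
          (a * n1 x + c * n1 y) / 3 + ε * ((1 - lam) / 2) +
            ε * (lam * (a * my x + c * my y)) := by
        unfold rh
        rw [h4]
        ring
      rw [e]
      unfold rh
      rw [mul_add]
      linarith
    · show ni (a • x + c • y) / 2 + ε * sy (a • x + c • y) ≤
        a * (ni x / 2 + ε * sy x) + c * (ni y / 2 + ε * sy y)
      have h2 := ni_cv ha hc x y
      have h3 := mul_le_mul_of_nonneg_left (sy_cv ha hc x y) hε.le
      have e : a * (ni x / 2 + ε * sy x) + c * (ni y / 2 + ε * sy y) =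
          (a * ni x + c * ni y) / 2 + ε * (a * sy x + c * sy y) := by ring
      rw [e]
      linarith
    · exact my_cv ha hc x y

theorem body_eq (lam ε : ℝ) : body lam ε = bod (g3 lam ε) := by
  ext x
  have e : (fun i => 2 * x i) = (2 : ℝ) • x := by
    funext i
    simp
  constructor
  · rintro ⟨h0, h1, h2⟩ i
    rw [e] at h0 h1 h2
    fin_cases i
    · exact h0
    · exact h1
    · exact h2
  · intro h
    refine ⟨?_, ?_, ?_⟩
    · rw [e]
      exact h 0
    · rw [e]
      exact h 1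
    · rw [e]
      exact h 2

theorem bod_sub {lam ε : ℝ} (hε : 0 < ε) : bod (g3 lam ε) ⊆ Metric.closedBall 0 1 := by
  intro x hx
  rw [← body_eq] at hx
  obtain ⟨_, h1, h2⟩ := hx
  rw [mem_closedBall_zero_iff, pi_norm_le_iff_of_nonneg zero_le_one]
  have hs : 0 ≤ sy (fun i => 2 * x i) := by
    unfold sy
    positivity
  have h3 : ni (fun i => 2 * x i) ≤ 2 := by
    have := mul_nonneg hε.le hs
    linarith
  have h4 : ∀ k, |2 * x k| = 2 * |x k| := by
    intro k
    rw [abs_mul, abs_two]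
  unfold ni at h3
  unfold my at h2
  rw [max_le_iff, max_le_iff] at h3
  rw [max_le_iff] at h2
  obtain ⟨a0, a1, a2⟩ := h3
  obtain ⟨a3, a4⟩ := h2
  rw [h4] at a0 a1 a2 a3 a4
  intro k
  rw [Real.norm_eq_abs]
  fin_cases k
  · show |x 0| ≤ 1
    linarith
  · show |x 1| ≤ 1
    linarith
  · show |x 2| ≤ 1
    linarith
  · show |x 3| ≤ 1
    linarith
  · show |x 4| ≤ 1
    linarith

theorem t_BODY : S_BODY := by
  intro lam ε h0 h1 hε hε1
  have hg := gau_g3 h0 h1 hε hε1
  obtain ⟨a1, a2, a3, a4, a5, a6⟩ := bod_facts hg 1 (bod_sub hε)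
  rw [body_eq]
  refine ⟨a1, a2, a3, a4, a5, a6, fun X => ?_⟩
  rw [packing_iff hg X]
  have h2 : ∀ v, (∃ i, 1 ≤ g3 lam ε i v) ↔ Sep lam ε v := by
    intro v
    constructor
    · rintro ⟨i, hi⟩
      fin_cases i
      · exact Or.inl hi
      · exact Or.inr (Or.inl hi)
      · exact Or.inr (Or.inr hi)
    · rintro (h | h | h)
      · exact ⟨0, h⟩
      · exact ⟨1, h⟩
      · exact ⟨2, h⟩
  constructor
  · intro h x hx y hy hxy
    exact (h2 _).1 (h x hx y hy hxy)
  · intro h x hx y hy hxy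
    exact (h2 _).2 (h x hx y hy hxy)

end Pool.Agent.K3h79.R5
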